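import Pool.Agent.Helper300.JonesT

/-!
# Jones's set function on the points of a continuum

The results of `Pool.Agent.Helper300.JonesT` on the points hold under the hypothesis that the map
`x ↦ T {x}` is lower semicontinuous.
-/

set_option autoImplicit false

open Set Topology TopologicalSpace

namespace Pool.Agent.Y798.JT

open Pool.Agent.Helper300.JonesT

variable {S : Type*} [TopologicalSpace S]

/-- `x ↦ T {x}` is lower semicontinuous -/
def PL (S : Type*) [TopologicalSpace S] : Prop :=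
  ∀ U : Set S, IsOpen U → IsOpen {x : S | (T ({x} : Set S) ∩ U).Nonempty}

theorem mem_interior_of_mem_T (h : PL S) {x y : S} {W : Set S} (hW : IsClosed W)
    (hWc : IsConnected W) (hx : (T ({x} : Set S) ∩ interior W).Nonempty) : x ∈ interior W := by
  rw [mem_interior]
  refine ⟨_, ?_, h (interior W) isOpen_interior, hx⟩
  rintro x' ⟨z, hz1, hz2⟩
  obtain ⟨w, hw1, hw2⟩ := hz1 W hW hWc (mem_interior_iff_mem_nhds.1 hz2)
  rw [mem_singleton_iff] at hw2
  rwa [← hw2]

theorem T_subset_of_mem (h : PL S) {x y : S} (hy : y ∈ T ({x} : Set S)) :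
    T ({y} : Set S) ⊆ T ({x} : Set S) := by
  intro z hz
  by_contra hcon
  obtain ⟨W, h1, h2, h3, h4⟩ := notMem_T.1 hcon
  have h5 : y ∈ interior W :=
    mem_interior_of_mem_T (y := y) h h1 h2 ⟨z, hz, mem_interior_iff_mem_nhds.2 h3⟩
  obtain ⟨w, hw1, hw2⟩ := hy W h1 h2 (mem_interior_iff_mem_nhds.1 h5)
  exact disjoint_left.1 h4 hw1 hw2

theorem T_subset_M (h : PL S) {z : S} (hz : z ∈ M S) : T ({z} : Set S) ⊆ M S := by
  intro y hy w hw
  have h1 : w ∈ T ({z} : Set S) := T_subset_of_mem h hy hw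
  exact T_subset_of_mem h (hz w h1) hy

variable [CompactSpace S] [T2Space S]

/-- Every `T {x}` contains a minimal point. -/
theorem exists_minimal (h : PL S) (x : S) : ∃ z ∈ T ({x} : Set S), z ∈ M S := by
  obtain ⟨m, hmx, hm⟩ := zorn_superset_nonempty {C : Set S | ∃ y, C = T ({y} : Set S)}
    (by
      intro c hc hchain hne
      have hd : DirectedOn (· ⊇ ·) c := by
        intro a ha b hb
        rcases hchain.total ha hb with hab | hab
        · exact ⟨a, ha, Subset.rfl, hab⟩
        · exact ⟨b, hb, hab, Subset.rfl⟩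
      have : Nonempty c := hne.to_subtype
      have hcl : ∀ U ∈ c, IsClosed U := by
        intro U hU
        obtain ⟨y, rfl⟩ := hc hU
        exact isClosed_T _
      obtain ⟨y, hy⟩ := IsCompact.nonempty_sInter_of_directed_nonempty_isCompact_isClosed hd
        (by
          intro U hU
          obtain ⟨y, rfl⟩ := hc hU
          exact ⟨y, self_mem_T y⟩)
        (fun U hU => (hcl U hU).isCompact) hcl
      refine ⟨T {y}, ⟨y, rfl⟩, ?_⟩
      intro s hs
      obtain ⟨w, rfl⟩ := hc hs
      exact T_subset_of_mem h (hy _ hs))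
    (T {x}) ⟨x, rfl⟩
  obtain ⟨z, hz⟩ := hm.prop
  refine ⟨z, hmx (by rw [hz]; exact self_mem_T z), ?_⟩
  intro y hy
  have h1 : T ({y} : Set S) ⊆ m := by rw [hz]; exact T_subset_of_mem h hy
  have h2 := hm.le_of_le ⟨y, rfl⟩ h1
  apply h2
  rw [hz]
  exact self_mem_T z

theorem isClosed_M (h : PL S) : IsClosed (M S) := by
  rw [← closure_subset_iff_isClosed]
  intro z hz y hy
  by_contra hcon
  obtain ⟨W, h1, h2, h3, h4⟩ := notMem_T.1 hcon
  have hyW : y ∈ Wᶜ := fun hyW => disjoint_left.1 h4 hyW rfl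
  obtain ⟨x', ⟨hx'1, hx'2⟩, hx'M⟩ := mem_closure_iff.1 hz _
    (isOpen_interior.inter (h Wᶜ h1.isOpen_compl))
    ⟨mem_interior_iff_mem_nhds.2 h3, y, hy, hyW⟩
  obtain ⟨y', hy'1, hy'2⟩ := hx'2
  obtain ⟨w, hw1, hw2⟩ := hx'M y' hy'1 W h1 h2 (mem_interior_iff_mem_nhds.1 hx'1)
  rw [mem_singleton_iff] at hw2
  exact hy'2 (hw2 ▸ hw1)

variable [ConnectedSpace S]

/-- the minimal points form a connected set -/
theorem isPreconnected_M (h : PL S) : IsPreconnected (M S) := by
  rw [isPreconnected_iff_subset_of_fully_disjoint_closed (isClosed_M h)]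
  intro P Q hP hQ hPQu hPQ
  by_contra hcon
  rw [not_or, not_subset, not_subset] at hcon
  obtain ⟨⟨a, haM, haP⟩, ⟨b, hbM, hbQ⟩⟩ := hcon
  have haQ : a ∈ Q := (hPQu haM).resolve_left haP
  have hbP : b ∈ P := (hPQu hbM).resolve_right hbQ
  have hTP : ∀ z ∈ M S, z ∈ P → T ({z} : Set S) ⊆ P := fun z hz hzP =>
    T_subset_of_separated hP hQ hPQ ((T_subset_M h hz).trans hPQu) (singleton_subset_iff.2 hzP)
  have hTQ : ∀ z ∈ M S, z ∈ Q → T ({z} : Set S) ⊆ Q := fun z hz hzQ =>
    T_subset_of_separated hQ hP hPQ.symm ((T_subset_M h hz).trans (by rwa [union_comm]))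
      (singleton_subset_iff.2 hzQ)
  have hMP : IsClosed (M S ∩ P) := (isClosed_M h).inter hP
  have hMQ : IsClosed (M S ∩ Q) := (isClosed_M h).inter hQ
  obtain ⟨U, V, hU, hV, hPU, hQV, hUV⟩ := SeparatedNhds.of_isCompact_isCompact
    hMP.isCompact hMQ.isCompact (hPQ.mono inter_subset_right inter_subset_right)
  set O : Set S := {y | T ({y} : Set S) ⊆ U} with hO
  have hOo : IsOpen O := isOpen_T_subset hU
  have hPO : M S ∩ P ⊆ O := fun z hz w hw => hPU ⟨T_subset_M h hz.1 hw, hTP z hz.1 hz.2 hw⟩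
  set E : Set S := {x | (T ({x} : Set S) ∩ (M S ∩ P)).Nonempty} with hE
  have hEO : E = {x | (T ({x} : Set S) ∩ O).Nonempty} := by
    ext x
    constructor
    · rintro ⟨y, hy1, hy2⟩
      exact ⟨y, hy1, hPO hy2⟩
    · rintro ⟨y, hy1, hy2⟩
      obtain ⟨z, hzy, hzM⟩ := exists_minimal h y
      have hzU : z ∈ U := hy2 hzy
      have hzP : z ∈ P := by
        by_contra hzP
        exact disjoint_left.1 hUV hzU (hQV ⟨hzM, (hPQu hzM).resolve_left hzP⟩)
      exact ⟨z, T_subset_of_mem h hy1 hzy, hzM, hzP⟩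
  have hEcl : IsClosed E := by
    have : E = {x | T ({x} : Set S) ⊆ (M S ∩ P)ᶜ}ᶜ := by
      ext x
      simp only [hE, mem_ofPred_eq, mem_compl_iff, subset_compl_iff_disjoint_right,
        not_disjoint_iff_nonempty_inter]
    rw [this]
    exact (isOpen_T_subset hMP.isOpen_compl).isClosed_compl
  have hEop : IsOpen E := by
    rw [hEO]
    exact h O hOo
  have hEuniv : E = univ := IsClopen.eq_univ ⟨hEcl, hEop⟩ ⟨b, b, self_mem_T b, hbM, hbP⟩
  have haE : a ∈ E := by rw [hEuniv]; exact mem_univ a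
  obtain ⟨w, hw1, _, hw3⟩ := haE
  exact disjoint_left.1 hPQ hw3 (hTQ a haM haQ hw1)

/-- all points are minimal -/
theorem M_eq_univ (h : PL S) : M S = univ := by
  rw [eq_univ_iff_forall]
  intro p
  by_contra hp
  obtain ⟨a, haT, hpa⟩ : ∃ a ∈ T ({p} : Set S), p ∉ T ({a} : Set S) := by
    simp only [M, mem_ofPred_eq] at hp
    push Not at hp
    exact hp
  obtain ⟨W, h1, h2, h3, h4⟩ := notMem_T.1 hpa
  obtain ⟨V, hV, haV, hVW⟩ := normal_exists_closure_subset (isClosed_singleton (x := a))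
    h1.isOpen_compl h4.subset_compl_left
  rw [singleton_subset_iff] at haV
  set D : Set S := M S ∪ T (closure V) with hD
  have hDcl : IsClosed D := (isClosed_M h).union (isClosed_T _)
  have hpD : p ∉ D := by
    rintro (h5 | h5)
    · exact hp h5
    · obtain ⟨w, hw1, hw2⟩ := h5 W h1 h2 h3
      exact hVW hw2 hw1
  have hDc : IsPreconnected D := by
    rw [isPreconnected_iff_subset_of_fully_disjoint_closed hDcl]
    have key : ∀ P Q : Set S, IsClosed P → IsClosed Q → D ⊆ P ∪ Q → Disjoint P Q → M S ⊆ P →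
        D ⊆ P := by
      intro P Q hP hQ hPQu hPQ hMP
      refine union_subset hMP (T_subset_of_separated hP hQ hPQ (subset_union_right.trans hPQu) ?_)
      intro b hb
      have hbT : T ({b} : Set S) ⊆ T (closure V) := T_mono (singleton_subset_iff.2 hb)
      have hb2 : T ({b} : Set S) ⊆ P ∪ Q := hbT.trans (subset_union_right.trans hPQu)
      rcases isPreconnected_iff_subset_of_fully_disjoint_closed (isClosed_T _) |>.1
        (isConnected_T_singleton b).isPreconnected P Q hP hQ hb2 hPQ with h5 | h5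
      · exact h5 (self_mem_T b)
      · obtain ⟨z, hz1, hz2⟩ := exists_minimal h b
        exact absurd (h5 hz1) (disjoint_left.1 hPQ (hMP hz2))
    intro P Q hP hQ hPQu hPQ
    rcases isPreconnected_iff_subset_of_fully_disjoint_closed (isClosed_M h) |>.1
      (isPreconnected_M h) P Q hP hQ (subset_union_left.trans hPQu) hPQ with h5 | h5
    · exact Or.inl (key P Q hP hQ hPQu hPQ h5)
    · exact Or.inr (key Q P hQ hP (by rwa [union_comm]) hPQ.symm h5)
  have haD : D ∈ 𝓝 a := by
    filter_upwards [hV.mem_nhds haV] with x hx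
    exact Or.inr (subset_T _ (subset_closure hx))
  obtain ⟨w, hw1, hw2⟩ := haT D hDcl ⟨⟨a, mem_of_mem_nhds haD⟩, hDc⟩ haD
  rw [mem_singleton_iff] at hw2
  exact hpD (hw2 ▸ hw1)

theorem T_eq_of_mem (h : PL S) {x y : S} (hy : y ∈ T ({x} : Set S)) :
    T ({y} : Set S) = T ({x} : Set S) := by
  have hx : x ∈ M S := by rw [M_eq_univ h]; exact mem_univ x
  exact Subset.antisymm (T_subset_of_mem h hy) (T_subset_of_mem h (hx y hy))

/-- If some `T {p}` has nonempty interior then `T {x}` is everything. -/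
theorem T_eq_univ (h : PL S) {p : S} (hp : (interior (T ({p} : Set S))).Nonempty) (x : S) :
    T ({x} : Set S) = univ := by
  have h1 : {x | (T ({x} : Set S) ∩ interior (T ({p} : Set S))).Nonempty} = T ({p} : Set S) := by
    ext x
    constructor
    · rintro ⟨y, hy1, hy2⟩
      have h2 := T_eq_of_mem h hy1
      have h3 := T_eq_of_mem h (interior_subset hy2)
      rw [← h3, h2]
      exact self_mem_T x
    · intro hx
      obtain ⟨y, hy⟩ := hp
      refine ⟨y, ?_, hy⟩
      rw [T_eq_of_mem h hx]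
      exact interior_subset hy
  have h2 : IsClopen (T ({p} : Set S)) := by
    refine ⟨isClosed_T _, ?_⟩
    rw [← h1]
    exact h _ isOpen_interior
  have h3 : T ({p} : Set S) = univ := h2.eq_univ ⟨p, self_mem_T p⟩
  have h4 : x ∈ T ({p} : Set S) := by rw [h3]; exact mem_univ x
  rw [T_eq_of_mem h h4, h3]

end Pool.Agent.Y798.JT
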