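import Pool.Agent.Y798.JT

/-!
# Characterisations of the continuity of Jones's set function
-/

set_option autoImplicit false

open Set Topology TopologicalSpace

namespace Pool.Agent.Y798.JT

open Pool.Agent.Helper300.JonesT

variable {S : Type*} [TopologicalSpace S]

/-- lower semicontinuity in the form of `LSC` from the description of `T` by the points -/
theorem isOpen_T_inter' [T2Space S] (h : LSC S) : PL S := fun _ hU => isOpen_T_inter h hU

/-- `T` is additive and `x ↦ T {x}` lower semicontinuous -/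
theorem T_eq_of_add [CompactSpace S] [T2Space S] [ConnectedSpace S]
    (hadd : ∀ A B : Set S, IsClosed A → IsClosed B → T (A ∪ B) = T A ∪ T B) {A : Set S}
    (hA : IsClosed A) : T A = ⋃ a ∈ A, T ({a} : Set S) := by
  refine Subset.antisymm (fun p hp => ?_)
    (iUnion₂_subset fun a ha => T_mono (singleton_subset_iff.2 ha))
  by_contra hcon
  have h1 : ∀ a ∈ A, p ∉ T ({a} : Set S) := fun a ha h2 => hcon (mem_iUnion₂.2 ⟨a, ha, h2⟩)
  have hex : ∀ a : S, ∃ V : Set S, a ∈ A → IsOpen V ∧ a ∈ V ∧ p ∉ T (closure V) := by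
    intro a
    by_cases ha : a ∈ A
    · obtain ⟨W, w1, w2, w3, w4⟩ := notMem_T.1 (h1 a ha)
      obtain ⟨V, hV, haV, hVW⟩ := normal_exists_closure_subset (isClosed_singleton (x := a))
        w1.isOpen_compl w4.subset_compl_left
      refine ⟨V, fun _ => ⟨hV, singleton_subset_iff.1 haV, fun h5 => ?_⟩⟩
      obtain ⟨w, hw1, hw2⟩ := h5 W w1 w2 w3
      exact hVW hw2 hw1
    · exact ⟨∅, fun h => absurd h ha⟩
  choose V hV using hex
  obtain ⟨t, ht1, ht2⟩ := hA.isCompact.elim_nhds_subcover V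
    (fun a ha => (hV a ha).1.mem_nhds (hV a ha).2.1)
  have h2 : ∀ s : Finset S, (∀ a ∈ s, a ∈ A) → p ∉ T (⋃ a ∈ s, closure (V a)) := by
    classical
    intro s
    induction s using Finset.induction_on with
    | empty =>
      intro _
      simp [T_empty]
    | @insert a s _ ih =>
      intro hs
      rw [Finset.set_biUnion_insert, hadd _ _ isClosed_closure
        (isClosed_biUnion_finset fun _ _ => isClosed_closure)]
      rintro (h3 | h3)
      · exact (hV a (hs a (Finset.mem_insert_self _ _))).2.2 h3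
      · exact ih (fun b hb => hs b (Finset.mem_insert_of_mem hb)) h3
  refine h2 t ht1 (T_mono ?_ hp)
  intro a ha
  obtain ⟨b, hb, hab⟩ := mem_iUnion₂.1 (ht2 ha)
  exact mem_iUnion₂.2 ⟨b, hb, subset_closure hab⟩

section

variable (S)

/-- The hyperspace of the nonempty closed subsets. -/
abbrev Hyp : Type _ := {A : Set S // IsClosed A ∧ A.Nonempty}

/-- the Vietoris topology -/
abbrev viet : TopologicalSpace (Hyp S) :=
  generateFrom {X | ∃ U : Set S, IsOpen U ∧ (X = {A | A.1 ⊆ U} ∨ X = {A | (A.1 ∩ U).Nonempty})}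

/-- `T` as a self-map of the hyperspace -/
def hT (A : Hyp S) : Hyp S := ⟨T A.1, isClosed_T _, A.2.2.mono (subset_T _)⟩

end

theorem LSC_of_continuous (h : @Continuous _ _ (viet S) (viet S) (hT S)) : LSC S := by
  let _ : TopologicalSpace (Hyp S) := viet S
  intro A hA hne U hU hTU
  have h1 : IsOpen {B : Hyp S | (B.1 ∩ U).Nonempty} :=
    isOpen_generateFrom_of_mem ⟨U, hU, Or.inr rfl⟩
  have h2 : IsOpen {B : Hyp S | (T B.1 ∩ U).Nonempty} := h1.preimage h
  -- a basis of the Vietoris topology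
  have hb : ∀ O : Set (Hyp S), IsOpen O → ∀ A : Hyp S, A ∈ O → ∃ u : Set (Set S), u.Finite ∧
      (∀ V ∈ u, IsOpen V) ∧ A.1 ⊆ ⋃₀ u ∧ (∀ V ∈ u, (A.1 ∩ V).Nonempty) ∧
      ∀ B : Hyp S, B.1 ⊆ ⋃₀ u → (∀ V ∈ u, (B.1 ∩ V).Nonempty) → B ∈ O := by
    intro O hO
    induction hO with
    | basic X hX =>
      obtain ⟨V, hV, rfl | rfl⟩ := hX
      · intro A hA
        refine ⟨{V}, finite_singleton _, by simpa using hV, by simpa using hA, ?_, ?_⟩
        · rintro _ rfl
          obtain ⟨a, ha⟩ := A.2.2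
          exact ⟨a, ha, hA ha⟩
        · intro B hB _
          simpa using hB
      · intro A hA
        refine ⟨{V, univ}, by simp, ?_, ?_, ?_, ?_⟩
        · rintro W (rfl | rfl)
          · exact hV
          · exact isOpen_univ
        · intro a _
          exact ⟨univ, by simp, mem_univ a⟩
        · rintro W (rfl | rfl)
          · exact hA
          · rw [inter_univ]
            exact A.2.2
        · intro B _ hB
          exact hB V (by simp)
    | univ =>
      intro A _
      refine ⟨{univ}, by simp, by simp, by simp, ?_, ?_⟩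
      · rintro _ rfl
        rw [inter_univ]
        exact A.2.2
      · intro B _ _
        exact mem_univ B
    | inter X Y _ _ ihX ihY =>
      intro A hA
      obtain ⟨u, hu1, hu2, hu3, hu4, hu5⟩ := ihX A hA.1
      obtain ⟨v, hv1, hv2, hv3, hv4, hv5⟩ := ihY A hA.2
      refine ⟨((fun V => V ∩ ⋃₀ v) '' u) ∪ ((fun V => V ∩ ⋃₀ u) '' v),
        (hu1.image _).union (hv1.image _), ?_, ?_, ?_, ?_⟩
      · rintro W (⟨V, hV, rfl⟩ | ⟨V, hV, rfl⟩)
        · exact (hu2 V hV).inter (isOpen_sUnion hv2)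
        · exact (hv2 V hV).inter (isOpen_sUnion hu2)
      · intro a ha
        obtain ⟨V, hV, haV⟩ := hu3 ha
        exact ⟨_, Or.inl ⟨V, hV, rfl⟩, haV, hv3 ha⟩
      · rintro W (⟨V, hV, rfl⟩ | ⟨V, hV, rfl⟩)
        · obtain ⟨a, ha1, ha2⟩ := hu4 V hV
          exact ⟨a, ha1, ha2, hv3 ha1⟩
        · obtain ⟨a, ha1, ha2⟩ := hv4 V hV
          exact ⟨a, ha1, ha2, hu3 ha1⟩
      · intro B hB1 hB2
        have h3 : B.1 ⊆ ⋃₀ u := by
          intro b hb
          obtain ⟨W, hW, hbW⟩ := hB1 hb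
          rcases hW with ⟨V, hV, rfl⟩ | ⟨V, hV, rfl⟩
          · exact ⟨V, hV, hbW.1⟩
          · exact hbW.2
        have h4 : B.1 ⊆ ⋃₀ v := by
          intro b hb
          obtain ⟨W, hW, hbW⟩ := hB1 hb
          rcases hW with ⟨V, hV, rfl⟩ | ⟨V, hV, rfl⟩
          · exact hbW.2
          · exact ⟨V, hV, hbW.1⟩
        refine ⟨hu5 B h3 fun V hV => ?_, hv5 B h4 fun V hV => ?_⟩
        · obtain ⟨b, hb1, hb2⟩ := hB2 _ (Or.inl ⟨V, hV, rfl⟩)
          exact ⟨b, hb1, hb2.1⟩
        · obtain ⟨b, hb1, hb2⟩ := hB2 _ (Or.inr ⟨V, hV, rfl⟩)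
          exact ⟨b, hb1, hb2.1⟩
    | sUnion C _ ih =>
      intro A hA
      obtain ⟨X, hX, hAX⟩ := hA
      obtain ⟨u, hu1, hu2, hu3, hu4, hu5⟩ := ih X hX A hAX
      exact ⟨u, hu1, hu2, hu3, hu4, fun B hB1 hB2 => ⟨X, hX, hu5 B hB1 hB2⟩⟩
  obtain ⟨u, hu1, hu2, hu3, hu4, hu5⟩ := hb _ h2 ⟨A, hA, hne⟩ hTU
  exact ⟨u, hu1, hu2, hu3, hu4, fun B hB hBne h3 h4 => hu5 ⟨B, hB, hBne⟩ h3 h4⟩

/-- continuity from the description by the points -/
theorem continuous_of_points [CompactSpace S] (h : PL S)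
    (hT' : ∀ A : Set S, IsClosed A → T A = ⋃ a ∈ A, T ({a} : Set S)) :
    @Continuous _ _ (viet S) (viet S) (hT S) := by
  let _ : TopologicalSpace (Hyp S) := viet S
  refine continuous_generateFrom_iff.2 ?_
  rintro X ⟨U, hU, rfl | rfl⟩
  · rw [isOpen_iff_mem_nhds]
    intro A hA
    obtain ⟨V, hV1, hV2, hV3⟩ := T_usc (A := A.1) hU hA
    have h1 : IsOpen {B : Hyp S | B.1 ⊆ V} := isOpen_generateFrom_of_mem ⟨V, hV1, Or.inl rfl⟩
    filter_upwards [h1.mem_nhds hV2] with B hB
    exact hV3 B.1 hB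
  · have e : hT S ⁻¹' {A : Hyp S | (A.1 ∩ U).Nonempty} =
        {A : Hyp S | (A.1 ∩ {x | (T ({x} : Set S) ∩ U).Nonempty}).Nonempty} := by
      ext A
      simp only [hT, mem_preimage, mem_ofPred_eq]
      rw [hT' A.1 A.2.1]
      constructor
      · rintro ⟨z, hz1, hz2⟩
        obtain ⟨a, ha, hza⟩ := mem_iUnion₂.1 hz1
        exact ⟨a, ha, z, hza, hz2⟩
      · rintro ⟨a, ha, z, hza, hz2⟩
        exact ⟨z, mem_iUnion₂.2 ⟨a, ha, hza⟩, hz2⟩
    rw [e]
    exact isOpen_generateFrom_of_mem ⟨_, h U hU, Or.inr rfl⟩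

variable [CompactSpace S] [T2Space S] [ConnectedSpace S]

/-- **`T` is continuous iff it is additive and lower semicontinuous on the points.** -/
theorem continuous_iff_add : @Continuous _ _ (viet S) (viet S) (hT S) ↔
    (∀ A B : Set S, IsClosed A → IsClosed B → T (A ∪ B) = T A ∪ T B) ∧ PL S := by
  constructor
  · intro h
    have h1 := LSC_of_continuous h
    exact ⟨fun A B hA hB => T_union h1 hA hB, isOpen_T_inter' h1⟩
  · rintro ⟨h1, h2⟩
    exact continuous_of_points h2 fun A hA => T_eq_of_add h1 hA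

/-- The sets `T {x}` are the classes of the equivalence relation `r`, with open and closed
quotient map and locally connected quotient. -/
def CD (r : Setoid S) : Prop :=
  (∀ x y : S, r x y ↔ y ∈ T ({x} : Set S)) ∧ IsOpenMap (Quotient.mk r) ∧
    IsClosedMap (Quotient.mk r) ∧ LocallyConnectedSpace (Quotient r)

theorem CD_of_LSC (h : LSC S) : ∃ r : Setoid S, CD r := by
  have hP := isOpen_T_inter' h
  let r : Setoid S :=
    { r := fun x y => y ∈ T ({x} : Set S)
      iseqv :=
        { refl := fun x => self_mem_T x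
          symm := fun hxy => T_symm h hxy
          trans := fun hxy hyz => T_subset_of_mem hP hxy hyz } }
  have hr : ∀ x y : S, r x y ↔ y ∈ T ({x} : Set S) := fun x y => Iff.rfl
  have hop : IsOpenMap (Quotient.mk r) := by
    intro U hU
    rw [← isQuotientMap_quotient_mk'.isOpen_preimage]
    change IsOpen (Quotient.mk r ⁻¹' (Quotient.mk r '' U))
    have e : Quotient.mk r ⁻¹' (Quotient.mk r '' U) = {x | (T ({x} : Set S) ∩ U).Nonempty} := by
      ext x
      constructor
      · rintro ⟨u, hu, hux⟩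
        exact ⟨u, T_symm h (Quotient.exact hux), hu⟩
      · rintro ⟨u, hu1, hu2⟩
        exact ⟨u, hu2, Quotient.sound (T_symm h hu1)⟩
    rw [e]
    exact hP U hU
  have hcl : IsClosedMap (Quotient.mk r) := by
    intro F hF
    rw [← isQuotientMap_quotient_mk'.isClosed_preimage]
    change IsClosed (Quotient.mk r ⁻¹' (Quotient.mk r '' F))
    have e : Quotient.mk r ⁻¹' (Quotient.mk r '' F) = {x | T ({x} : Set S) ⊆ Fᶜ}ᶜ := by
      ext x
      simp only [mem_compl_iff, mem_ofPred_eq, subset_compl_iff_disjoint_right,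
        not_disjoint_iff_nonempty_inter]
      constructor
      · rintro ⟨u, hu, hux⟩
        exact ⟨u, T_symm h (Quotient.exact hux), hu⟩
      · rintro ⟨u, hu1, hu2⟩
        exact ⟨u, hu2, Quotient.sound (T_symm h hu1)⟩
    rw [e]
    exact (isOpen_T_subset hF.isOpen_compl).isClosed_compl
  refine ⟨r, hr, hop, hcl, ?_⟩
  rw [locallyConnectedSpace_iff_connected_subsets]
  intro q U hU
  induction q using Quotient.inductionOn with
  | h p =>
    obtain ⟨O, hOU, hO, hpO⟩ := mem_nhds_iff.1 hU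
    have h1 : IsOpen (Quotient.mk r ⁻¹' O) := hO.preimage continuous_quotient_mk'
    have h2 : T ({p} : Set S) ⊆ Quotient.mk r ⁻¹' O := by
      intro y hy
      have : Quotient.mk r y = Quotient.mk r p := Quotient.sound (T_symm h hy)
      rw [mem_preimage, this]
      exact hpO
    obtain ⟨K, hK1, hK2, hK3, hK4⟩ := exists_small_continuum h h1 h2
    refine ⟨Quotient.mk r '' K, hop.image_mem_nhds hK3,
      hK2.isPreconnected.image _ continuous_quotient_mk'.continuousOn, ?_⟩
    rintro _ ⟨x, hx, rfl⟩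
    exact hOU (hK4 hx)

theorem points_of_CD {r : Setoid S} (h : CD r) :
    PL S ∧ ∀ A : Set S, IsClosed A → T A = ⋃ a ∈ A, T ({a} : Set S) := by
  obtain ⟨hr, hop, hcl, hlc⟩ := h
  have hcont : Continuous (Quotient.mk r) := continuous_quotient_mk'
  have hmk : ∀ x y : S, Quotient.mk r x = Quotient.mk r y ↔ y ∈ T ({x} : Set S) := fun x y =>
    Quotient.eq.trans (hr x y)
  have hsym : ∀ x y : S, y ∈ T ({x} : Set S) → x ∈ T ({y} : Set S) := fun x y hxy =>
    (hmk y x).1 ((hmk x y).2 hxy).symm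
  refine ⟨fun U hU => ?_, fun A hA => Subset.antisymm (fun p hp => ?_)
    (iUnion₂_subset fun a ha => T_mono (singleton_subset_iff.2 ha))⟩
  · have e : {x | (T ({x} : Set S) ∩ U).Nonempty} = Quotient.mk r ⁻¹' (Quotient.mk r '' U) := by
      ext x
      constructor
      · rintro ⟨u, hu1, hu2⟩
        exact ⟨u, hu2, ((hmk x u).2 hu1).symm⟩
      · rintro ⟨u, hu, hux⟩
        exact ⟨u, (hmk x u).1 hux.symm, hu⟩
    rw [e]
    exact (hop U hU).preimage hcont
  · by_contra hcon
    set F : Set S := Quotient.mk r ⁻¹' (Quotient.mk r '' A) with hF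
    have hFcl : IsClosed F := (hcl A hA).preimage hcont
    have hAF : A ⊆ F := fun a ha => ⟨a, ha, rfl⟩
    have hpF : Disjoint (T ({p} : Set S)) F := by
      rw [disjoint_left]
      rintro y hy ⟨a, ha, hay⟩
      refine hcon (mem_iUnion₂.2 ⟨a, ha, (hmk a p).1 ?_⟩)
      rw [hay]
      exact ((hmk p y).2 hy).symm
    obtain ⟨O, hO, hpO, hOF⟩ := normal_exists_closure_subset (isClosed_T ({p} : Set S))
      hFcl.isOpen_compl hpF.subset_compl_right
    have hsat : IsClosed (Quotient.mk r ⁻¹' (Quotient.mk r '' closure O)) :=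
      (hcl _ isClosed_closure).preimage hcont
    have hsatF : Disjoint (Quotient.mk r ⁻¹' (Quotient.mk r '' closure O)) F := by
      rw [disjoint_left]
      rintro y ⟨o, ho, hoy⟩ ⟨a, ha, hay⟩
      exact hOF ho ⟨a, ha, hay.trans hoy.symm⟩
    have hn : Quotient.mk r '' O ∈ 𝓝 (Quotient.mk r p) :=
      (hop O hO).mem_nhds ⟨p, hpO (self_mem_T p), rfl⟩
    obtain ⟨V, hV1, hV2, hV3⟩ := locallyConnectedSpace_iff_connected_subsets.1 hlc _ _ hn
    have hpre : IsPreconnected (Quotient.mk r ⁻¹' V) := by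
      rintro U1 U2 hU1 hU2 hsub ⟨x, hxV, hx1⟩ ⟨y, hyV, hy2⟩
      obtain ⟨v, hvV, ⟨u1, hu1, hv1⟩, ⟨u2, hu2, hv2⟩⟩ := hV2 (Quotient.mk r '' U1)
        (Quotient.mk r '' U2) (hop _ hU1) (hop _ hU2) (by
          intro v hv
          induction v using Quotient.inductionOn with
          | h z =>
            rcases hsub (show z ∈ Quotient.mk r ⁻¹' V from hv) with h1 | h1
            · exact Or.inl ⟨z, h1, rfl⟩
            · exact Or.inr ⟨z, h1, rfl⟩) ⟨_, hxV, x, hx1, rfl⟩ ⟨_, hyV, y, hy2, rfl⟩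
      have hfib : T ({u1} : Set S) ⊆ Quotient.mk r ⁻¹' V := by
        intro w hw
        rw [mem_preimage, ← (hmk u1 w).2 hw, hv1]
        exact hvV
      have hu2T : u2 ∈ T ({u1} : Set S) := (hmk u1 u2).1 (hv1.trans hv2.symm)
      obtain ⟨w, hw1, hw2⟩ := (isConnected_T_singleton u1).isPreconnected U1 U2 hU1 hU2
        (hfib.trans hsub) ⟨u1, self_mem_T u1, hu1⟩ ⟨u2, hu2T, hu2⟩
      exact ⟨w, hfib hw1, hw2⟩
    have hVn : Quotient.mk r ⁻¹' V ∈ 𝓝 p := hcont.continuousAt hV1
    obtain ⟨w, hw1, hw2⟩ := hp (closure (Quotient.mk r ⁻¹' V)) isClosed_closure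
      ⟨⟨p, subset_closure (mem_of_mem_nhds hVn)⟩, hpre.closure⟩
      (Filter.mem_of_superset hVn subset_closure)
    have h1 : closure (Quotient.mk r ⁻¹' V) ⊆
        Quotient.mk r ⁻¹' (Quotient.mk r '' closure O) := by
      refine closure_minimal (fun z hz => ?_) hsat
      obtain ⟨o, ho, hoz⟩ := hV3 hz
      exact ⟨o, subset_closure ho, hoz⟩
    exact disjoint_left.1 hsatF (h1 hw1) (hAF hw2)

/-- **`T` is continuous iff the sets `T {x}` form a continuous decomposition with locally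
connected quotient.** -/
theorem continuous_iff_CD : @Continuous _ _ (viet S) (viet S) (hT S) ↔
    ∃ r : Setoid S, CD r := by
  constructor
  · intro h
    exact CD_of_LSC (LSC_of_continuous h)
  · rintro ⟨r, hr⟩
    exact continuous_of_points (points_of_CD hr).1 (points_of_CD hr).2

end Pool.Agent.Y798.JT
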